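import Mathlib
import Pool.Agent.Helper19.P3.Defs
import Pool.Agent.Helper58.LT.Lam
import Pool.Agent.Helper58.LT.Sidon
import Pool.Agent.Helper72.CA.Mom

/-!
# Project PS3, leaf P3-7: the moments of the cluster primes
-/

set_option autoImplicit false

namespace Pool.Agent.Helper19.P3

open Finset Pool.Agent.Helper6.Lehmer Pool.Agent.Helper6.LehmerCount Pool.Agent.Helper58.LT
open Pool.Agent.Helper58.PS Pool.Agent.Helper6.PW

private theorem mom_psiS_prime {N p : ℕ} (hp : p.Prime) : psiS N p = psi N p := by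
  unfold psiS
  rw [Nat.Prime.factorization hp, Finsupp.sum_single_index]
  · simp
  · simp

private theorem mom_Js_congr {ι A : Type*} [AddCommGroup A] [DecidableEq A] (I : Finset ι)
    (f g : ι → A) (s : ℕ) (h : ∀ x ∈ I, f x = g x) : Js I f s = Js I g s := by
  classical
  unfold Js en
  congr 1
  apply Finset.filter_congr
  intro z hz
  rw [Finset.mem_product] at hz
  have h1 := mem_tup.mp hz.1
  have h2 := mem_tup.mp hz.2
  have e1 : sm' f z.1 = sm' g z.1 := by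
    unfold sm'
    exact Finset.sum_congr rfl (fun j _ => h _ (h1 j))
  have e2 : sm' f z.2 = sm' g z.2 := by
    unfold sm'
    exact Finset.sum_congr rfl (fun j _ => h _ (h2 j))
  rw [e1, e2]

private theorem mom_PP_prime {β κ p : ℕ} (h : p ∈ PP β κ) : p.Prime ∧ p ≤ 2 ^ (β + κ) := by
  unfold PP at h
  rw [Finset.mem_filter, Finset.mem_Icc] at h
  exact ⟨h.2, h.1.2⟩

private theorem mom_card_PP (β κ : ℕ) : #(PP β κ) ≤ 2 ^ (β + κ) := by
  unfold PP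
  refine (Finset.card_filter_le _ _).trans ?_
  rw [Nat.card_Icc]
  have h1 : 1 ≤ 2 ^ (β - κ) := Nat.one_le_two_pow
  have h2 : 1 ≤ 2 ^ (β + κ) := Nat.one_le_two_pow
  omega

theorem J_sidon (i : ℕ) (hi : 1 ≤ i) : ∃ C : ℕ, ∀ β κ : ℕ, Ok i β κ → C * κ ≤ β →
    Js (PP β κ) (psiS (2 ^ ((2 * i + 1) * β))) i ≤ 2 ^ (i * β + C * κ) := by
  refine ⟨4 * i + i * i + i, ?_⟩
  intro β κ hok hC
  have hκ := hok.one
  have h4 : 4 * i * κ ≤ β := by
    refine le_trans ?_ hC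
    apply Nat.mul_le_mul_right
    omega
  rw [mom_Js_congr (PP β κ) (psiS (2 ^ ((2 * i + 1) * β))) (psi (2 ^ ((2 * i + 1) * β))) i
    (fun x hx => mom_psiS_prime (mom_PP_prime hx).1)]
  have hi2 : 2 * i ≤ 2 ^ (2 * i) := by
    have := Nat.lt_two_pow_self (n := 2 * i)
    omega
  have hN : 2 * i * (2 ^ (β + κ)) ^ (2 * i) ≤ 2 ^ ((2 * i + 1) * β) := by
    calc 2 * i * (2 ^ (β + κ)) ^ (2 * i) ≤ 2 ^ (2 * i) * (2 ^ (β + κ)) ^ (2 * i) :=
          Nat.mul_le_mul_right _ hi2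
      _ = 2 ^ (2 * i + (β + κ) * (2 * i)) := by rw [← pow_mul, ← pow_add]
      _ ≤ 2 ^ ((2 * i + 1) * β) := by
          apply Nat.pow_le_pow_right (by norm_num)
          have h5 : i * 1 ≤ i * κ := Nat.mul_le_mul_left _ hκ
          nlinarith
  have h1 := Js_primes (r := i) (N := 2 ^ ((2 * i + 1) * β)) (P := 2 ^ (β + κ)) hi hN (PP β κ)
    (fun p hp => mom_PP_prime hp)
  refine h1.trans ?_
  have h2 : i.factorial ≤ 2 ^ (i * i) := by
    calc i.factorial ≤ i ^ i := Nat.factorial_le_pow i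
      _ ≤ (2 ^ i) ^ i := Nat.pow_le_pow_left (Nat.lt_two_pow_self (n := i)).le i
      _ = 2 ^ (i * i) := by rw [← pow_mul]
  calc i.factorial * #(PP β κ) ^ i ≤ 2 ^ (i * i) * (2 ^ (β + κ)) ^ i :=
        Nat.mul_le_mul h2 (Nat.pow_le_pow_left (mom_card_PP β κ) i)
    _ = 2 ^ (i * i + (β + κ) * i) := by rw [← pow_mul, ← pow_add]
    _ ≤ 2 ^ (i * β + (4 * i + i * i + i) * κ) := by
        apply Nat.pow_le_pow_right (by norm_num)
        have h5 : (i * i) * 1 ≤ (i * i) * κ := Nat.mul_le_mul_left _ hκ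
        nlinarith

theorem J_high (i : ℕ) (hi : 1 ≤ i) : ∃ K : ℕ, i < K ∧ ∃ C : ℕ, ∀ β κ : ℕ, Ok i β κ →
    C * κ ≤ β → C ≤ β →
    (Js (PP β κ) (psiS (2 ^ ((2 * i + 1) * β))) K : ℝ) ≤
      (2 : ℝ) ^ ((2 * (K : ℝ) + 3 / 4 - 2 * i) * β + C * κ) := by
  obtain ⟨C₀, hC₀, hHM⟩ := Pool.Agent.Helper72.CA.HM
  obtain ⟨k, hk⟩ : ∃ k : ℕ, k = 4 * i + 2 := ⟨_, rfl⟩
  have hk2 : 2 ≤ k := by omega
  obtain ⟨K, hK⟩ : ∃ K : ℕ, K = k ^ 3 := ⟨_, rfl⟩
  obtain ⟨c, hc⟩ : ∃ c : ℕ, C₀ * (k : ℝ) ^ 10 / Real.log 2 ≤ c := exists_nat_ge _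
  have hiK : i < K := by
    rw [hK, hk]
    have : 4 * i + 2 ≤ (4 * i + 2) ^ 3 := Nat.le_self_pow (by norm_num) _
    omega
  refine ⟨K, hiK, 8 * K + c + 2 * i + 20, ?_⟩
  intro β κ hok hCκ hCβ
  have hκ := hok.one
  have hlog : (0 : ℝ) < Real.log 2 := Real.log_pos (by norm_num)
  have h1 : (2 * i + 20) * κ ≤ β := by
    refine le_trans ?_ hCκ
    apply Nat.mul_le_mul_right
    omega
  have hκβ : κ ≤ β := by nlinarith
  have hβκ : β - κ + κ = β := Nat.sub_add_cancel hκβ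
  obtain ⟨b, hb⟩ : ∃ b, b = β - κ := ⟨_, rfl⟩
  have hbκ : b + κ = β := by omega
  have hb4 : 4 ≤ b := by nlinarith
  rw [mom_Js_congr (PP β κ) (psiS (2 ^ ((2 * i + 1) * β)))
    (Pool.Agent.Helper73.HM.psq (2 ^ ((2 * i + 1) * β))) K
    (fun x hx => by
      rw [mom_psiS_prime (mom_PP_prime hx).1, psi_prime (mom_PP_prime hx).1]
      rfl)]
  have hsub : PP β κ ⊆ Icc (2 ^ b) (2 ^ (2 * κ) * 2 ^ b) := by
    intro p hp
    unfold PP at hp
    rw [Finset.mem_filter, Finset.mem_Icc] at hp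
    rw [Finset.mem_Icc]
    refine ⟨by rw [hb]; exact hp.1.1, hp.1.2.trans ?_⟩
    rw [← pow_add]
    apply Nat.pow_le_pow_right (by norm_num)
    omega
  have hNle : ((2 ^ ((2 * i + 1) * β) : ℕ) : ℝ) ≤ ((2 ^ b : ℕ) : ℝ) ^ (((k : ℝ) + 2) / 2) := by
    have e1 : ((2 ^ ((2 * i + 1) * β) : ℕ) : ℝ) = (2 : ℝ) ^ (((2 * i + 1) * β : ℕ) : ℝ) := by
      rw [Real.rpow_natCast]
      push_cast
      rfl
    have e2 : ((2 ^ b : ℕ) : ℝ) = (2 : ℝ) ^ (b : ℝ) := by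
      rw [Real.rpow_natCast]
      push_cast
      rfl
    rw [e1, e2, ← Real.rpow_mul (by norm_num)]
    apply Real.rpow_le_rpow_of_exponent_le (by norm_num)
    have e3 : (k : ℝ) = 4 * i + 2 := by rw [hk]; push_cast; ring
    rw [e3]
    have h5 : (2 * i + 1) * β ≤ b * (2 * i + 2) := by
      rw [← hbκ] at h1 ⊢
      nlinarith
    have h6 : (((2 * i + 1) * β : ℕ) : ℝ) ≤ ((b * (2 * i + 2) : ℕ) : ℝ) := by exact_mod_cast h5
    refine h6.trans (le_of_eq ?_)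
    push_cast
    ring
  have h2 := hHM k (2 ^ b) (2 ^ ((2 * i + 1) * β)) (2 ^ (2 * κ)) hk2
    (by calc 16 = 2 ^ 4 := by norm_num
      _ ≤ 2 ^ b := Nat.pow_le_pow_right (by norm_num) hb4)
    Nat.one_le_two_pow Nat.one_le_two_pow hNle (PP β κ) hsub
  rw [← hK] at h2
  refine h2.trans ?_
  -- everything as a power of two
  have f1 : Real.exp (C₀ * (k : ℝ) ^ 10) ≤ (2 : ℝ) ^ (c : ℝ) := by
    rw [Real.rpow_def_of_pos (by norm_num)]
    apply Real.exp_le_exp.mpr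
    rw [div_le_iff₀ hlog] at hc
    linarith
  have f2 : (((2 ^ (2 * κ) : ℕ) : ℝ)) ^ (4 * K) = (2 : ℝ) ^ ((8 * (K : ℝ)) * κ) := by
    have : (((2 ^ (2 * κ) : ℕ) : ℝ)) ^ (4 * K) = (2 : ℝ) ^ (((2 * κ) * (4 * K) : ℕ) : ℝ) := by
      rw [Real.rpow_natCast, pow_mul (2 : ℝ) (2 * κ) (4 * K), Nat.cast_pow, Nat.cast_ofNat]
    rw [this]
    congr 1
    push_cast
    ring
  have f3 : ((2 ^ b : ℕ) : ℝ) ^ ((2 : ℝ) * (k : ℝ) ^ 3 + 7 / 4) =
      (2 : ℝ) ^ ((b : ℝ) * (2 * (K : ℝ) + 7 / 4)) := by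
    have e2 : ((2 ^ b : ℕ) : ℝ) = (2 : ℝ) ^ (b : ℝ) := by
      rw [Real.rpow_natCast]
      push_cast
      rfl
    rw [e2, ← Real.rpow_mul (by norm_num)]
    congr 1
    rw [hK]
    push_cast
    ring
  have f4 : ((2 ^ ((2 * i + 1) * β) : ℕ) : ℝ) = (2 : ℝ) ^ ((2 * (i : ℝ) + 1) * β) := by
    have e1 : ((2 ^ ((2 * i + 1) * β) : ℕ) : ℝ) = (2 : ℝ) ^ (((2 * i + 1) * β : ℕ) : ℝ) := by
      rw [Real.rpow_natCast]
      push_cast
      rfl
    rw [e1]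
    congr 1
    push_cast
    ring
  rw [f2, f3, f4, div_le_iff₀ (Real.rpow_pos_of_pos (by norm_num) _),
    ← Real.rpow_add (by norm_num)]
  calc Real.exp (C₀ * (k : ℝ) ^ 10) * (2 : ℝ) ^ ((8 * (K : ℝ)) * κ) *
        (2 : ℝ) ^ ((b : ℝ) * (2 * (K : ℝ) + 7 / 4))
      ≤ (2 : ℝ) ^ (c : ℝ) * (2 : ℝ) ^ ((8 * (K : ℝ)) * κ) *
        (2 : ℝ) ^ ((b : ℝ) * (2 * (K : ℝ) + 7 / 4)) := by
        apply mul_le_mul_of_nonneg_right _ (Real.rpow_nonneg (by norm_num) _)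
        exact mul_le_mul_of_nonneg_right f1 (Real.rpow_nonneg (by norm_num) _)
    _ = (2 : ℝ) ^ ((c : ℝ) + (8 * (K : ℝ)) * κ + (b : ℝ) * (2 * (K : ℝ) + 7 / 4)) := by
        rw [← Real.rpow_add (by norm_num), ← Real.rpow_add (by norm_num)]
    _ ≤ _ := by
        apply Real.rpow_le_rpow_of_exponent_le (by norm_num)
        have g1 : (b : ℝ) + κ = β := by exact_mod_cast hbκ
        have g2 : (1 : ℝ) ≤ κ := by exact_mod_cast hκ
        have g3 : (0 : ℝ) ≤ K := Nat.cast_nonneg K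
        have g4 : (0 : ℝ) ≤ c := Nat.cast_nonneg c
        have g5 : (0 : ℝ) ≤ i := Nat.cast_nonneg i
        have g6 : (c : ℝ) * 1 ≤ c * κ := mul_le_mul_of_nonneg_left g2 g4
        have g7 : 0 ≤ (κ : ℝ) * (2 * (K : ℝ) + 7 / 4) := by positivity
        have g8 : (0 : ℝ) ≤ (2 * i + 20) * κ := by positivity
        rw [← g1]
        push_cast
        nlinarith

end Pool.Agent.Helper19.P3
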