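import Mathlib
import Pool.Agent.Helper19.P3.Defs
import Pool.Agent.Helper77.PS.Blk2Of

/-!
# Project PS4: one dyadic block, no critical class

`idx_part4`: for one index `i`, with `w = ⌊τ l⌋₊`: the numbers failing NS are few, the others are in case A
(`#clu = 2 i`), in case C (`#clu < 2 i`, the small primes reach `2^(κ_r)`), or in the class `DataE`
(`#clu = i + r`, `2 ≤ r < i`, all other primes are below `2^(κ_r)`, `κ_r = ⌊τ₀(r) l⌋₊`).
-/

set_option autoImplicit false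

namespace Pool.Agent.Helper19.P3

open Finset Pool.Agent.Helper6.Lehmer Pool.Agent.Helper6.LehmerCount Pool.Agent.Helper58.LT
open Pool.Agent.Helper58.PS Pool.Agent.Helper6.PW

/-- the statement of `classE` -/
def StE (i r : ℕ) : Prop :=
    ∃ τ₀ : ℝ, 0 < τ₀ ∧ τ₀ ≤ 1 / (2 * (i : ℝ) + 2) ∧ ∃ δ : ℝ, 0 < δ ∧ ∃ l₀ : ℕ,
      ∀ (l k κ β : ℕ) (S : Finset ℕ),
      l₀ ≤ l → τ₀ / 2 * l ≤ κ → (κ : ℝ) ≤ τ₀ * l → |(l : ℝ) - (2 * i + 1) * β| ≤ κ →
      (∀ n ∈ S, Idx n k ∧ n ≤ 2 ^ l ∧ 2 ^ (l - 1) < n ∧ DataE n κ i r β) →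
      (#S : ℝ) ≤ (2 : ℝ) ^ ((1 / 2 - δ) * (l : ℝ))

/-- the statement of `toE` -/
def StToE : Prop :=
    ∀ n b W θ κ i r : ℕ, Squarefree n → #(clu n b W) = i + r →
      (∀ q ∈ n.primeFactors, q ∈ clu n b W ∨ q < 2 ^ (θ + 1)) →
      (∀ q ∈ n.primeFactors, q ≤ 2 ^ (b + 1)) → θ + 1 ≤ κ → 2 * W ≤ κ → 1 ≤ κ → κ ≤ b →
      DataE n κ i r b

theorem exists_pos_le4 (f : ℕ → ℝ) (hf : ∀ r, 0 < f r) (i : ℕ) :
    ∃ m : ℝ, 0 < m ∧ ∀ r, r < i → m ≤ f r := by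
  induction i with
  | zero => exact ⟨1, one_pos, fun r hr => by omega⟩
  | succ i ih =>
    obtain ⟨m, hm, h⟩ := ih
    refine ⟨min m (f i), lt_min hm (hf i), fun r hr => ?_⟩
    rcases Nat.lt_or_ge r i with h1 | h1
    · exact (min_le_left _ _).trans (h r h1)
    · have h2 : r = i := by omega
      rw [h2]
      exact min_le_right _ _

theorem exists_nat_ge4 (f : ℕ → ℕ) (i : ℕ) : ∃ m : ℕ, ∀ r, r < i → f r ≤ m := by
  induction i with
  | zero => exact ⟨0, fun r hr => by omega⟩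
  | succ i ih =>
    obtain ⟨m, h⟩ := ih
    refine ⟨max m (f i), fun r hr => ?_⟩
    rcases Nat.lt_or_ge r i with h1 | h1
    · exact (h r h1).trans (le_max_left _ _)
    · have h2 : r = i := by omega
      rw [h2]
      exact le_max_right _ _

/-- the block for one index `i` -/
theorem idx_part4 (i : ℕ) (hi : 2 ≤ i) (U : ℝ) (hU : 1 ≤ U)
    (hA : StA i (1 / U)) (hC : ∀ ε : ℝ, 0 < ε → StC ε) (hB : StB i)
    (hE : ∀ r, 2 ≤ r → r + 1 ≤ i → StE i r) (hT : StToE) :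
    ∃ e : ℝ, 0 < e ∧ ∃ δ : ℝ, 0 < δ ∧ ∃ l₀ : ℕ, ∀ l b : ℕ,
    l₀ ≤ l → (l : ℝ) ≤ U * b → |(l : ℝ) - (2 * i + 1) * b| ≤ e * b → ∀ S : Finset ℕ,
    (∀ n ∈ S, IsLehmer n ∧ 2 ^ (l - 1) < n ∧ n ≤ 2 ^ l ∧
      (∃ p, IsP n p ∧ 2 ^ b < p ∧ p ≤ 2 ^ (b + 1)) ∧
      i + 2 ≤ #(n.primeFactors.filter (fun q : ℕ => (2 : ℝ) ^ ((1 - e) * b) ≤ (q : ℝ)))) →
    (#S : ℝ) ≤ (2 : ℝ) ^ ((1 / 2 - δ) * (l : ℝ)) := by
  classical
  have hiR : (0 : ℝ) ≤ i := Nat.cast_nonneg _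
  -- the classes `E`, total version
  have hE' : ∀ r : ℕ, ∃ τ₀ : ℝ, 0 < τ₀ ∧ τ₀ ≤ 1 / (2 * (i : ℝ) + 2) ∧ ∃ δ : ℝ, 0 < δ ∧ ∃ l₀ : ℕ,
      2 ≤ r → r + 1 ≤ i → ∀ (l k κ β : ℕ) (S : Finset ℕ),
      l₀ ≤ l → τ₀ / 2 * l ≤ κ → (κ : ℝ) ≤ τ₀ * l → |(l : ℝ) - (2 * i + 1) * β| ≤ κ →
      (∀ n ∈ S, Idx n k ∧ n ≤ 2 ^ l ∧ 2 ^ (l - 1) < n ∧ DataE n κ i r β) →
      (#S : ℝ) ≤ (2 : ℝ) ^ ((1 / 2 - δ) * (l : ℝ)) := by
    intro r
    by_cases h1 : 2 ≤ r ∧ r + 1 ≤ i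
    · obtain ⟨τ₀, h2, h3, δ, h4, l₀, h5⟩ := hE r h1.1 h1.2
      exact ⟨τ₀, h2, h3, δ, h4, l₀, fun _ _ => h5⟩
    · exact ⟨1 / (2 * (i : ℝ) + 2), by positivity, le_rfl, 1, one_pos, 0,
        fun h2 h3 => absurd ⟨h2, h3⟩ h1⟩
  choose τE hτE0 hτE1 δE hδE0 lE hlE using hE'
  obtain ⟨τm, hτm0, hτm⟩ := exists_pos_le4 τE hτE0 i
  obtain ⟨δm, hδm0, hδm⟩ := exists_pos_le4 δE hδE0 i
  obtain ⟨lm, hlm⟩ := exists_nat_ge4 lE i
  have hU0 : 0 < U := by linarith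
  obtain ⟨τA, hτA, δA, hδA, lA, hA⟩ := hA
  obtain ⟨τC, hτC, δC, hδC, lC, hC⟩ := hC (min (τm / 2) (1 / U))
    (lt_min (by positivity) (by positivity))
  obtain ⟨K, hK, e, he0, he1, τB, hτB, hB⟩ := hB
  have hKR : (1 : ℝ) ≤ K := by exact_mod_cast hK
  have hK0 : (0 : ℝ) < K := by linarith
  obtain ⟨τ, hτdef⟩ : ∃ τ, τ = min (min 1 τB) (min (min (τA / K) (τC / K)) (τm / (4 * K))) :=
    ⟨_, rfl⟩
  have hτ0 : 0 < τ := by
    rw [hτdef]
    refine lt_min (lt_min one_pos hτB) (lt_min (lt_min (by positivity) (by positivity)) (by positivity))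
  have hτ1 : τ ≤ 1 := by
    rw [hτdef]
    exact (min_le_left _ _).trans (min_le_left _ _)
  have hτ2 : τ ≤ τB := by
    rw [hτdef]
    exact (min_le_left _ _).trans (min_le_right _ _)
  have hτ3 : K * τ ≤ τA := by
    have : τ ≤ τA / K := by
      rw [hτdef]
      exact (min_le_right _ _).trans ((min_le_left _ _).trans (min_le_left _ _))
    rw [le_div_iff₀ hK0] at this
    linarith
  have hτ4 : K * τ ≤ τC := by
    have : τ ≤ τC / K := by
      rw [hτdef]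
      exact (min_le_right _ _).trans ((min_le_left _ _).trans (min_le_right _ _))
    rw [le_div_iff₀ hK0] at this
    linarith
  have hτ5 : 4 * (K * τ) ≤ τm := by
    have : τ ≤ τm / (4 * K) := by
      rw [hτdef]
      exact (min_le_right _ _).trans (min_le_right _ _)
    rw [le_div_iff₀ (by positivity)] at this
    linarith
  obtain ⟨δ, hδdef⟩ : ∃ δ, δ = min (min τ δm) (min δA δC) / 2 := ⟨_, rfl⟩
  have hδ0 : 0 < δ := by
    rw [hδdef]
    have : 0 < min (min τ δm) (min δA δC) := lt_min (lt_min hτ0 hδm0) (lt_min hδA hδC)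
    linarith
  have hδ1 : 2 * δ ≤ τ := by
    rw [hδdef]
    have : min (min τ δm) (min δA δC) ≤ τ := (min_le_left _ _).trans (min_le_left _ _)
    linarith
  have hδ4 : 2 * δ ≤ δm := by
    rw [hδdef]
    have : min (min τ δm) (min δA δC) ≤ δm := (min_le_left _ _).trans (min_le_right _ _)
    linarith
  have hδ2 : 2 * δ ≤ δA := by
    rw [hδdef]
    have : min (min τ δm) (min δA δC) ≤ δA := (min_le_right _ _).trans (min_le_left _ _)
    linarith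
  have hδ3 : 2 * δ ≤ δC := by
    rw [hδdef]
    have : min (min τ δm) (min δA δC) ≤ δC := (min_le_right _ _).trans (min_le_right _ _)
    linarith
  obtain ⟨lω, hω⟩ := omega_small (τ / 2) (by positivity)
  obtain ⟨l1, h1⟩ := poly_ev (12004 + 2 * (i : ℝ)) 6 δ hδ0
  obtain ⟨l2, hl2⟩ : ∃ l2 : ℕ, 2 / τ + 4 / τm + 3 * U ≤ l2 := exists_nat_ge _
  refine ⟨e, he0, δ, hδ0, lA + lC + lω + lm + l1 + l2, fun l b hl hlU hlb S hS => ?_⟩
  have hl2' : 2 / τ + 4 / τm + 3 * U ≤ (l : ℝ) := hl2.trans (by exact_mod_cast (by omega : l2 ≤ l))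
  have hτpos : 0 < 2 / τ := by positivity
  have hτmpos : 0 < 4 / τm := by positivity
  have hl3 : 2 ≤ τ * l := by
    have : 2 / τ ≤ (l : ℝ) := by linarith
    rw [div_le_iff₀ hτ0] at this
    linarith
  have hl4 : 4 ≤ τm * l := by
    have : 4 / τm ≤ (l : ℝ) := by linarith
    rw [div_le_iff₀ hτm0] at this
    linarith
  have hb3 : 3 ≤ b := by
    have h2 : U * 3 ≤ U * b := by linarith
    have h3 : (3 : ℝ) ≤ b := le_of_mul_le_mul_left h2 hU0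
    exact_mod_cast h3
  have hbR : (3 : ℝ) ≤ b := by exact_mod_cast hb3
  have hl0 : (0 : ℝ) < l := by
    have : 0 < 3 * U := by positivity
    linarith
  obtain ⟨w, hw⟩ : ∃ w, w = ⌊τ * (l : ℝ)⌋₊ := ⟨_, rfl⟩
  have hwle : (w : ℝ) ≤ τ * l := by rw [hw]; exact Nat.floor_le (by positivity)
  have hwge : τ * (l : ℝ) < w + 1 := by rw [hw]; exact Nat.lt_floor_add_one _
  have hw1 : 1 ≤ w := by
    have : (1 : ℝ) < w + 1 := by linarith
    have h2 : 1 < w + 1 := by exact_mod_cast this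
    omega
  have hwl : w ≤ l := by
    have : (w : ℝ) ≤ l := by nlinarith
    exact_mod_cast this
  have hcardw : ∀ n ∈ S, n.primeFactors.card ≤ w := by
    intro n hn
    obtain ⟨ha, _, hc, _⟩ := hS n hn
    have h2 := hω l n (by omega) ha.one_lt.le hc
    have h3 : (n.primeFactors.card : ℝ) ≤ w := by linarith
    exact_mod_cast h3
  have hKw1 : 1 ≤ K * w := Nat.mul_pos (by omega) (by omega)
  have hKwR : ((K * w : ℕ) : ℝ) = K * w := by push_cast; ring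
  have hKwτ : (K : ℝ) * w ≤ K * τ * l := by
    have := mul_le_mul_of_nonneg_left hwle hK0.le
    linarith
  have hKwA : ((K * w : ℕ) : ℝ) ≤ τA * l := by
    rw [hKwR]
    exact hKwτ.trans (mul_le_mul_of_nonneg_right hτ3 hl0.le)
  have hKwC : ((K * w : ℕ) : ℝ) ≤ τC * l := by
    rw [hKwR]
    exact hKwτ.trans (mul_le_mul_of_nonneg_right hτ4 hl0.le)
  have hKwm : 4 * ((K : ℝ) * w) ≤ τm * l := by
    have h2 : 4 * (K * τ) * l ≤ τm * l := mul_le_mul_of_nonneg_right hτ5 hl0.le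
    linarith
  have hbU : 1 / U * l ≤ b := by
    rw [div_mul_eq_mul_div, div_le_iff₀ hU0]
    linarith
  have hbC : min (τm / 2) (1 / U) * l ≤ b :=
    (mul_le_mul_of_nonneg_right (min_le_right _ _) hl0.le).trans hbU
  -- the tolerance in class `E`
  obtain ⟨κ, hκdef⟩ : ∃ κ : ℕ → ℕ, ∀ r, κ r = ⌊τE r * (l : ℝ)⌋₊ := ⟨_, fun _ => rfl⟩
  have hκle : ∀ r, (κ r : ℝ) ≤ τE r * l := by
    intro r
    rw [hκdef]
    exact Nat.floor_le (mul_nonneg (hτE0 r).le hl0.le)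
  have hκge : ∀ r, τE r * (l : ℝ) < κ r + 1 := by
    intro r
    rw [hκdef]
    exact Nat.lt_floor_add_one _
  have hκm : ∀ r, r < i → τm * l ≤ τE r * l := fun r hr =>
    mul_le_mul_of_nonneg_right (hτm r hr) hl0.le
  have hκ2 : ∀ r, r < i → τE r / 2 * l ≤ κ r := by
    intro r hr
    have h2 := hκge r
    have h3 := hκm r hr
    linarith
  have hκb : ∀ r, κ r ≤ b := by
    intro r
    have h2 := hκle r
    have h3 : (l : ℝ) ≤ (2 * i + 2) * b := by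
      have h4 := (abs_le.1 hlb).2
      have h5 : e * b ≤ 1 * b := mul_le_mul_of_nonneg_right he1.le (by linarith)
      linarith
    have h4 : τE r * l ≤ 1 / (2 * (i : ℝ) + 2) * ((2 * i + 2) * b) :=
      mul_le_mul (hτE1 r) h3 hl0.le (by positivity)
    have h5 : 1 / (2 * (i : ℝ) + 2) * ((2 * i + 2) * b) = b := by
      field_simp
    have h6 : (κ r : ℝ) ≤ b := by linarith
    exact_mod_cast h6
  -- the parts
  set T : ℝ := (2 : ℝ) ^ ((1 / 2 - 2 * δ) * (l : ℝ)) with hT'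
  have hT0 : 0 < T := by positivity
  have hmono : ∀ x : ℝ, 2 * δ ≤ x → (2 : ℝ) ^ ((1 / 2 - x) * (l : ℝ)) ≤ T := by
    intro x hx
    rw [hT']
    refine Real.rpow_le_rpow_of_exponent_le (by norm_num) ?_
    exact mul_le_mul_of_nonneg_right (by linarith) hl0.le
  set S1 := S.filter (fun n => NSfail n l w) with hS1
  set PA : Finset (ℕ × ℕ) := range (l + 2) ×ˢ range (l + 1) with hPA
  set SA : ℕ × ℕ → Finset ℕ := fun z => S.filter (fun n => Idx n z.1 ∧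
    |(l : ℝ) - (2 * i + 1) * b| ≤ ((K * w : ℕ) : ℝ) ∧ |(z.2 : ℝ) - b| ≤ ((K * w : ℕ) : ℝ) ∧
      DataA n l (K * w) z.1 i z.2 b) with hSA
  set PC : Finset (ℕ × ℕ × ℕ × ℕ × ℕ) := range (l + 2) ×ˢ (range (l + 1) ×ˢ (range (l + 1) ×ˢ
    (range (l + 1) ×ˢ range (l + 1)))) with hPC
  set SC : ℕ × ℕ × ℕ × ℕ × ℕ → Finset ℕ := fun z => S.filter (fun n => Idx n z.1 ∧
    ConC l (K * w) z.2.1 z.2.2.1 z.2.2.2.1 z.2.2.2.2 b ∧ min (τm / 2) (1 / U) * l ≤ z.2.2.2.2 ∧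
      DataC n l (K * w) z.1 z.2.1 z.2.2.1 z.2.2.2.1 z.2.2.2.2 b) with hSC
  set PE : Finset (ℕ × ℕ) := range (l + 2) ×ˢ range i with hPE
  set SE : ℕ × ℕ → Finset ℕ := fun z => S.filter (fun n => Idx n z.1 ∧ 2 ≤ z.2 ∧ z.2 + 1 ≤ i ∧
    |(l : ℝ) - (2 * i + 1) * b| ≤ κ z.2 ∧ DataE n (κ z.2) i z.2 b) with hSE
  have hcov : S ⊆ S1 ∪ PA.biUnion SA ∪ PC.biUnion SC ∪ PE.biUnion SE := by
    intro n hn
    obtain ⟨hL, hn1, hn2, ⟨P, hP, hP1, hP2⟩, hfil⟩ := hS n hn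
    by_cases hNS : NSfail n l w
    · exact mem_union_left _ (mem_union_left _ (mem_union_left _ (mem_filter.2 ⟨hn, hNS⟩)))
    obtain ⟨k, hk⟩ := exists_idx hL
    have hkl : k ≤ l + 1 := hk.index_le.trans (by have := hcardw n hn; omega)
    obtain ⟨c1, c2, c3, cA, cC⟩ := hB l b w k n P hw1 (hwle.trans (mul_le_mul_of_nonneg_right hτ2
      hl0.le)) hk hn2 hn1 (hcardw n hn) hNS hP hP1 hP2 hlb hfil
    rcases Nat.lt_or_ge #(clu n b (K * w)) (2 * i) with hlt | hge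
    · -- case C or case E
      obtain ⟨μ, ν, θ', θ, hμ, hν, hθ', hθ, hcon, hdat, hsm⟩ := cC hlt
      obtain ⟨r, hr⟩ : ∃ r, r = #(clu n b (K * w)) - i := ⟨_, rfl⟩
      have hr1 : #(clu n b (K * w)) = i + r := by omega
      have hr2 : 2 ≤ r := by omega
      have hr3 : r + 1 ≤ i := by omega
      have hKκ : 2 * (K * w) ≤ κ r := by
        have h2 := hκge r
        have h3 := hκm r (by omega)
        have h4 : (2 : ℝ) * (K * w) ≤ κ r := by linarith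
        exact_mod_cast h4
      rcases Nat.lt_or_ge (κ r) (θ + 1) with hθκ | hθκ
      · refine mem_union_left _ (mem_union_right _ (mem_biUnion.2 ⟨(k, μ, ν, θ', θ), ?_, ?_⟩))
        · simp only [hPC, mem_product, mem_range]
          omega
        · simp only [hSC, mem_filter]
          refine ⟨hn, hk, hcon, ?_, hdat⟩
          have h2 : (κ r : ℝ) ≤ θ := by exact_mod_cast (by omega : κ r ≤ θ)
          have h3 : min (τm / 2) (1 / U) * l ≤ τm / 2 * l :=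
            mul_le_mul_of_nonneg_right (min_le_left _ _) hl0.le
          have h4 := hκ2 r (by omega)
          have h5 := hκm r (by omega)
          linarith
      · refine mem_union_right _ (mem_biUnion.2 ⟨(k, r), ?_, ?_⟩)
        · simp only [hPE, mem_product, mem_range]
          omega
        · simp only [hSE, mem_filter]
          refine ⟨hn, hk, hr2, hr3, ?_, ?_⟩
          · refine c3.trans ?_
            have h2 : ((2 * (K * w) : ℕ) : ℝ) ≤ κ r := by exact_mod_cast hKκ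
            push_cast at h2
            have h3 : (0 : ℝ) ≤ (K : ℝ) * w := by positivity
            linarith
          · exact hT n b (K * w) θ (κ r) i r hL.squarefree hr1 hsm
              (fun q hq => (hP.2 q hq).trans hP2) hθκ hKκ (by omega) (hκb r)
    · -- case A
      obtain ⟨α, hα, hαb, hdat⟩ := cA (le_antisymm c2 hge)
      refine mem_union_left _ (mem_union_left _ (mem_union_right _ (mem_biUnion.2
        ⟨(k, α), ?_, ?_⟩)))
      · simp only [hPA, mem_product, mem_range]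
        omega
      · simp only [hSA, mem_filter]
        exact ⟨hn, hk, by rw [hKwR]; exact c3, by rw [hKwR]; exact hαb, hdat⟩
  have hcard : (#S : ℝ) ≤ #S1 + ∑ z ∈ PA, (#(SA z) : ℝ) + ∑ z ∈ PC, (#(SC z) : ℝ) +
      ∑ z ∈ PE, (#(SE z) : ℝ) := by
    have h2 : #S ≤ #S1 + ∑ z ∈ PA, #(SA z) + ∑ z ∈ PC, #(SC z) + ∑ z ∈ PE, #(SE z) :=
      (card_le_card hcov).trans ((card_union_le _ _).trans (add_le_add ((card_union_le _ _).trans
        (add_le_add ((card_union_le _ _).trans (add_le_add le_rfl card_biUnion_le))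
          card_biUnion_le)) card_biUnion_le))
    exact_mod_cast h2
  have b1 : (#S1 : ℝ) ≤ 12000 * ((l : ℝ) + 1) ^ 6 * T := by
    refine (ns_part hτ0 hτ1 hw hw1 S1 ?_).trans ?_
    · intro n hn
      rw [hS1, mem_filter] at hn
      obtain ⟨ha, _, hc, _⟩ := hS n hn.1
      exact ⟨ha, hc, hcardw n hn.1, hn.2⟩
    · exact mul_le_mul_of_nonneg_left (hmono τ hδ1) (by positivity)
  have b2 : ∀ z ∈ PA, (#(SA z) : ℝ) ≤ T := by
    intro z _
    rcases (SA z).eq_empty_or_nonempty with h2 | ⟨n, hn⟩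
    · rw [h2, card_empty, Nat.cast_zero]
      exact hT0.le
    · have h3 := hn
      simp only [hSA, mem_filter] at h3
      refine (hA l (K * w) z.1 z.2 b (SA z) (by omega) hKw1 hKwA hbU h3.2.2.1 h3.2.2.2.1 ?_).trans
        (hmono δA hδ2)
      intro m hm
      simp only [hSA, mem_filter] at hm
      obtain ⟨_, ha, hc, _⟩ := hS m hm.1
      exact ⟨hm.2.1, hc, ha, hm.2.2.2.2⟩
  have b3 : ∀ z ∈ PC, (#(SC z) : ℝ) ≤ T := by
    intro z _
    rcases (SC z).eq_empty_or_nonempty with h2 | ⟨n, hn⟩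
    · rw [h2, card_empty, Nat.cast_zero]
      exact hT0.le
    · have h3 := hn
      simp only [hSC, mem_filter] at h3
      refine (hC l (K * w) z.1 z.2.1 z.2.2.1 z.2.2.2.1 z.2.2.2.2 b (SC z) (by omega) hKw1 hKwC
        h3.2.2.2.1 hbC h3.2.2.1 ?_).trans (hmono δC hδ3)
      intro m hm
      simp only [hSC, mem_filter] at hm
      obtain ⟨_, ha, hc, _⟩ := hS m hm.1
      exact ⟨hm.2.1, hc, ha, hm.2.2.2.2⟩
  have b4 : ∀ z ∈ PE, (#(SE z) : ℝ) ≤ T := by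
    intro z hz
    rcases (SE z).eq_empty_or_nonempty with h2 | ⟨n, hn⟩
    · rw [h2, card_empty, Nat.cast_zero]
      exact hT0.le
    · have h3 := hn
      simp only [hSE, mem_filter] at h3
      have hzi : z.2 < i := by omega
      have hlE' : lE z.2 ≤ l := (hlm z.2 hzi).trans (by omega)
      refine (hlE z.2 h3.2.2.1 h3.2.2.2.1 l z.1 (κ z.2) b (SE z) hlE' (hκ2 z.2 hzi) (hκle z.2)
        h3.2.2.2.2.1 ?_).trans (hmono (δE z.2) (hδ4.trans (hδm z.2 hzi)))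
      intro m hm
      simp only [hSE, mem_filter] at hm
      obtain ⟨_, ha, hc, _⟩ := hS m hm.1
      exact ⟨hm.2.1, hc, ha, hm.2.2.2.2.2⟩
  have hx1 : (1 : ℝ) ≤ (l : ℝ) + 1 := by linarith
  have cA : (#PA : ℝ) ≤ 2 * ((l : ℝ) + 1) ^ 6 := by
    rw [hPA, card_product, card_range, card_range]
    push_cast
    have h2 : ((l : ℝ) + 1) ^ 2 ≤ ((l : ℝ) + 1) ^ 6 := pow_le_pow_right₀ hx1 (by norm_num)
    nlinarith
  have cC : (#PC : ℝ) ≤ 2 * ((l : ℝ) + 1) ^ 6 := by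
    simp only [hPC, card_product, card_range]
    push_cast
    have h2 : ((l : ℝ) + 1) ^ 5 ≤ ((l : ℝ) + 1) ^ 6 := pow_le_pow_right₀ hx1 (by norm_num)
    have h3 : 0 < ((l : ℝ) + 1) ^ 4 := by positivity
    nlinarith
  have cE : (#PE : ℝ) ≤ 2 * (i : ℝ) * ((l : ℝ) + 1) ^ 6 := by
    rw [hPE, card_product, card_range, card_range]
    push_cast
    have h2 : ((l : ℝ) + 1) ^ 1 ≤ ((l : ℝ) + 1) ^ 6 := pow_le_pow_right₀ hx1 (by norm_num)
    have h3 : (l : ℝ) + 2 ≤ 2 * ((l : ℝ) + 1) ^ 6 := by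
      rw [pow_one] at h2
      linarith
    have h4 := mul_le_mul_of_nonneg_right h3 hiR
    linarith
  have b2' : ∑ z ∈ PA, (#(SA z) : ℝ) ≤ 2 * ((l : ℝ) + 1) ^ 6 * T := by
    refine (Finset.sum_le_sum b2).trans ?_
    rw [Finset.sum_const, nsmul_eq_mul]
    exact mul_le_mul_of_nonneg_right cA hT0.le
  have b3' : ∑ z ∈ PC, (#(SC z) : ℝ) ≤ 2 * ((l : ℝ) + 1) ^ 6 * T := by
    refine (Finset.sum_le_sum b3).trans ?_
    rw [Finset.sum_const, nsmul_eq_mul]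
    exact mul_le_mul_of_nonneg_right cC hT0.le
  have b4' : ∑ z ∈ PE, (#(SE z) : ℝ) ≤ 2 * (i : ℝ) * ((l : ℝ) + 1) ^ 6 * T := by
    refine (Finset.sum_le_sum b4).trans ?_
    rw [Finset.sum_const, nsmul_eq_mul]
    exact mul_le_mul_of_nonneg_right cE hT0.le
  have hpos6 : 0 < ((l : ℝ) + 1) ^ 6 := by positivity
  have hpoly := h1 l (by omega)
  calc (#S : ℝ) ≤ ((12004 + 2 * (i : ℝ)) * ((l : ℝ) + 1) ^ 6) * T := by linarith
    _ ≤ (2 : ℝ) ^ (δ * l) * T := mul_le_mul_of_nonneg_right hpoly hT0.le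
    _ = (2 : ℝ) ^ ((1 / 2 - δ) * (l : ℝ)) := by
      rw [hT', ← Real.rpow_add (by norm_num)]
      congr 1
      ring

/-- the block for all indices `2 ≤ i ≤ I` -/
theorem idx_all4 (I : ℕ) (U : ℝ) (hU : 1 ≤ U)
    (hA : ∀ i, 2 ≤ i → StA i (1 / U)) (hC : ∀ ε : ℝ, 0 < ε → StC ε) (hB : ∀ i, 2 ≤ i → StB i)
    (hE : ∀ i r, 2 ≤ r → r + 1 ≤ i → StE i r) (hT : StToE) :
    ∃ e : ℝ, 0 < e ∧ ∃ δ : ℝ, 0 < δ ∧ ∃ l₀ : ℕ, ∀ i : ℕ, 2 ≤ i → i ≤ I → ∀ l b : ℕ,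
    l₀ ≤ l → (l : ℝ) ≤ U * b → |(l : ℝ) - (2 * i + 1) * b| ≤ e * b → ∀ S : Finset ℕ,
    (∀ n ∈ S, IsLehmer n ∧ 2 ^ (l - 1) < n ∧ n ≤ 2 ^ l ∧
      (∃ p, IsP n p ∧ 2 ^ b < p ∧ p ≤ 2 ^ (b + 1)) ∧
      i + 2 ≤ #(n.primeFactors.filter (fun q : ℕ => (2 : ℝ) ^ ((1 - e) * b) ≤ (q : ℝ)))) →
    (#S : ℝ) ≤ (2 : ℝ) ^ ((1 / 2 - δ) * (l : ℝ)) := by
  induction I with
  | zero => exact ⟨1, one_pos, 1, one_pos, 0, fun i h1 h2 => by omega⟩
  | succ I ih =>
    obtain ⟨e, he, δ, hδ, l₀, h⟩ := ih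
    by_cases hI : 2 ≤ I + 1
    · obtain ⟨e', he', δ', hδ', l₀', h'⟩ := idx_part4 (I + 1) hI U hU (hA _ hI) hC (hB _ hI)
        (hE _) hT
      refine ⟨min e e', lt_min he he', min δ δ', lt_min hδ hδ', max l₀ l₀', ?_⟩
      intro i h2 hiI l b hl hlU hlb S hS
      have hb0 : (0 : ℝ) ≤ b := Nat.cast_nonneg _
      have hl0 : (0 : ℝ) ≤ l := Nat.cast_nonneg _
      have hfil : ∀ e'' : ℝ, min e e' ≤ e'' → ∀ n ∈ S,
          i + 2 ≤ #(n.primeFactors.filter (fun q : ℕ => (2 : ℝ) ^ ((1 - e'') * b) ≤ (q : ℝ))) := by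
        intro e'' he'' n hn
        obtain ⟨_, _, _, _, h3⟩ := hS n hn
        refine h3.trans (card_le_card ?_)
        intro q hq
        rw [mem_filter] at hq ⊢
        refine ⟨hq.1, le_trans ?_ hq.2⟩
        refine Real.rpow_le_rpow_of_exponent_le (by norm_num) ?_
        exact mul_le_mul_of_nonneg_right (by linarith) hb0
      rcases Nat.lt_or_ge I i with h3 | h3
      · have h4 : i = I + 1 := by omega
        subst h4
        refine (h' l b ((le_max_right _ _).trans hl) hlU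
          (hlb.trans (mul_le_mul_of_nonneg_right (min_le_right _ _) hb0)) S ?_).trans ?_
        · intro n hn
          obtain ⟨a1, a2, a3, a4, _⟩ := hS n hn
          exact ⟨a1, a2, a3, a4, hfil e' (min_le_right _ _) n hn⟩
        · refine Real.rpow_le_rpow_of_exponent_le (by norm_num) ?_
          exact mul_le_mul_of_nonneg_right (by linarith [min_le_right δ δ']) hl0
      · refine (h i h2 h3 l b ((le_max_left _ _).trans hl) hlU
          (hlb.trans (mul_le_mul_of_nonneg_right (min_le_left _ _) hb0)) S ?_).trans ?_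
        · intro n hn
          obtain ⟨a1, a2, a3, a4, _⟩ := hS n hn
          exact ⟨a1, a2, a3, a4, hfil e (min_le_left _ _) n hn⟩
        · refine Real.rpow_le_rpow_of_exponent_le (by norm_num) ?_
          exact mul_le_mul_of_nonneg_right (by linarith [min_le_left δ δ']) hl0
    · exact ⟨1, one_pos, 1, one_pos, 0, fun i h1 h2 => by omega⟩

/-- one block, from the statements of the classes -/
theorem blk4_of (hA : ∀ (r : ℕ), 2 ≤ r → ∀ ε : ℝ, 0 < ε → StA r ε)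
    (hC : ∀ ε : ℝ, 0 < ε → StC ε) (hB : ∀ i, 2 ≤ i → StB i)
    (hE : ∀ i r, 2 ≤ r → r + 1 ≤ i → StE i r) (hT : StToE) (U : ℝ) (hU : 1 ≤ U) :
    ∃ δ : ℝ, 0 < δ ∧ ∃ l₀ : ℕ, ∀ l b : ℕ,
    l₀ ≤ l → (l : ℝ) ≤ U * b → ∀ S : Finset ℕ,
    (∀ n ∈ S, IsLehmer n ∧ 2 ^ (l - 1) < n ∧ n ≤ 2 ^ l ∧
      (∃ p, IsP n p ∧ 2 ^ b < p ∧ p ≤ 2 ^ (b + 1))) →
    (#S : ℝ) ≤ (2 : ℝ) ^ ((1 / 2 - δ) * (l : ℝ)) := by
  classical
  have hU0 : 0 < U := by linarith
  obtain ⟨I, hI⟩ : ∃ I : ℕ, U + 1 ≤ I := exists_nat_ge _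
  obtain ⟨e', he', δ₁, hδ₁, l₁, h1⟩ := idx_all4 I U hU
    (fun i hi => hA i hi _ (by positivity)) hC hB hE hT
  -- make `e` at most one
  obtain ⟨e, hedef⟩ : ∃ e, e = min e' 1 := ⟨_, rfl⟩
  have he : 0 < e := by rw [hedef]; exact lt_min he' one_pos
  have hee : e ≤ e' := by rw [hedef]; exact min_le_left _ _
  have he1 : e ≤ 1 := by rw [hedef]; exact min_le_right _ _
  obtain ⟨δ₂, hδ₂, l₂, h2⟩ := blk e he U hU
  obtain ⟨δ, hδdef⟩ : ∃ δ, δ = min δ₁ δ₂ / 2 := ⟨_, rfl⟩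
  have hδ0 : 0 < δ := by
    rw [hδdef]
    have : 0 < min δ₁ δ₂ := lt_min hδ₁ hδ₂
    linarith
  have hδ1 : 2 * δ ≤ δ₁ := by
    rw [hδdef]
    have := min_le_left δ₁ δ₂
    linarith
  have hδ2 : 2 * δ ≤ δ₂ := by
    rw [hδdef]
    have := min_le_right δ₁ δ₂
    linarith
  obtain ⟨l₃, h3⟩ := poly_ev ((I : ℝ) + 2) 0 δ hδ0
  refine ⟨δ, hδ0, l₁ + l₂ + l₃ + 1, fun l b hl hlU S hS => ?_⟩
  have hl0 : (0 : ℝ) < l := by exact_mod_cast (by omega : 0 < l)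
  have hb0 : (0 : ℝ) < b := by
    by_contra hno
    push Not at hno
    have : U * (b : ℝ) ≤ 0 := mul_nonpos_of_nonneg_of_nonpos hU0.le hno
    linarith
  set T : ℝ := (2 : ℝ) ^ ((1 / 2 - 2 * δ) * (l : ℝ)) with hT'
  have hT0 : 0 < T := by positivity
  have hmono : ∀ x : ℝ, 2 * δ ≤ x → (2 : ℝ) ^ ((1 / 2 - x) * (l : ℝ)) ≤ T := by
    intro x hx
    rw [hT']
    refine Real.rpow_le_rpow_of_exponent_le (by norm_num) ?_
    exact mul_le_mul_of_nonneg_right (by linarith) hl0.le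
  set S1 := S.filter (fun n => ∀ i : ℕ, 2 ≤ i → e ≤ |(l : ℝ) / b - (2 * i + 1)| ∨
    #(n.primeFactors.filter (fun q : ℕ => (2 : ℝ) ^ ((1 - e) * b) ≤ (q : ℝ))) < i + 2) with hS1
  set S2 : ℕ → Finset ℕ := fun i => S.filter (fun n => 2 ≤ i ∧
    |(l : ℝ) / b - (2 * i + 1)| < e ∧
    i + 2 ≤ #(n.primeFactors.filter (fun q : ℕ => (2 : ℝ) ^ ((1 - e) * b) ≤ (q : ℝ)))) with hS2
  have hcov : S ⊆ S1 ∪ (range (I + 1)).biUnion S2 := by
    intro n hn
    by_cases hc : ∀ i : ℕ, 2 ≤ i → e ≤ |(l : ℝ) / b - (2 * i + 1)| ∨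
        #(n.primeFactors.filter (fun q : ℕ => (2 : ℝ) ^ ((1 - e) * b) ≤ (q : ℝ))) < i + 2
    · exact mem_union_left _ (mem_filter.2 ⟨hn, hc⟩)
    · push Not at hc
      obtain ⟨i, hi2, hi3, hi4⟩ := hc
      refine mem_union_right _ (mem_biUnion.2 ⟨i, ?_, mem_filter.2 ⟨hn, hi2, hi3, hi4⟩⟩)
      rw [mem_range]
      have h4 : (l : ℝ) / b ≤ U := by
        rw [div_le_iff₀ hb0]
        exact hlU
      have h5 := (abs_lt.1 hi3).1
      have h6 : (i : ℝ) ≤ I := by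
        have : (0 : ℝ) ≤ i := Nat.cast_nonneg _
        linarith
      have h7 : i ≤ I := by exact_mod_cast h6
      omega
  have hcard : (#S : ℝ) ≤ #S1 + ∑ i ∈ range (I + 1), (#(S2 i) : ℝ) := by
    have h4 : #S ≤ #S1 + ∑ i ∈ range (I + 1), #(S2 i) :=
      (card_le_card hcov).trans ((card_union_le _ _).trans (add_le_add le_rfl card_biUnion_le))
    exact_mod_cast h4
  have b1 : (#S1 : ℝ) ≤ T := by
    refine (h2 l b (by omega) hlU S1 ?_).trans (hmono δ₂ hδ2)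
    intro n hn
    rw [hS1, mem_filter] at hn
    obtain ⟨a1, a2, a3, a4⟩ := hS n hn.1
    exact ⟨a1, a2, a3, a4, hn.2⟩
  have b2 : ∀ i ∈ range (I + 1), (#(S2 i) : ℝ) ≤ T := by
    intro i hi
    rw [mem_range] at hi
    rcases (S2 i).eq_empty_or_nonempty with h4 | ⟨n, hn⟩
    · rw [h4, card_empty, Nat.cast_zero]
      exact hT0.le
    · simp only [hS2, mem_filter] at hn
      have h5 : |(l : ℝ) - (2 * i + 1) * b| ≤ e' * b := by
        have h6 : (l : ℝ) - (2 * i + 1) * b = ((l : ℝ) / b - (2 * i + 1)) * b := by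
          field_simp
        rw [h6, abs_mul, abs_of_pos hb0]
        exact mul_le_mul_of_nonneg_right (hn.2.2.1.le.trans hee) hb0.le
      refine (h1 i hn.2.1 (by omega) l b (by omega) hlU h5 (S2 i) ?_).trans (hmono δ₁ hδ1)
      intro m hm
      simp only [hS2, mem_filter] at hm
      obtain ⟨a1, a2, a3, a4⟩ := hS m hm.1
      refine ⟨a1, a2, a3, a4, hm.2.2.2.trans (card_le_card ?_)⟩
      intro q hq
      rw [mem_filter] at hq ⊢
      refine ⟨hq.1, le_trans ?_ hq.2⟩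
      refine Real.rpow_le_rpow_of_exponent_le (by norm_num) ?_
      exact mul_le_mul_of_nonneg_right (by linarith) hb0.le
  have b2' : ∑ i ∈ range (I + 1), (#(S2 i) : ℝ) ≤ ((I : ℝ) + 1) * T := by
    refine (Finset.sum_le_sum b2).trans (le_of_eq ?_)
    rw [Finset.sum_const, nsmul_eq_mul, card_range]
    push_cast
    ring
  have hpoly := h3 l (by omega)
  rw [pow_zero, mul_one] at hpoly
  calc (#S : ℝ) ≤ ((I : ℝ) + 2) * T := by linarith
    _ ≤ (2 : ℝ) ^ (δ * l) * T := mul_le_mul_of_nonneg_right hpoly hT0.le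
    _ = (2 : ℝ) ^ ((1 / 2 - δ) * (l : ℝ)) := by
      rw [hT', ← Real.rpow_add (by norm_num)]
      congr 1
      ring

end Pool.Agent.Helper19.P3
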