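import Mathlib
import Pool.Agent.Helper77.P3.Blk4Of
import Pool.Agent.Helper77.PS.ClassCb
import Pool.Agent.Helper10.PS.ClassA
import Pool.Agent.Helper6.PS.ClusterS
import Pool.Agent.Helper33.PS.Bridge
import Pool.Agent.Helper47.PS.ToA
import Pool.Agent.Helper47.PS.ToC
import Pool.Agent.Helper58.P3.ToE
import Pool.Agent.Helper19.P3.ClassE

/-!
# Project PS4: one dyadic block
-/

set_option autoImplicit false

namespace Pool.Agent.Helper19.P3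

open Finset Pool.Agent.Helper6.Lehmer Pool.Agent.Helper6.LehmerCount Pool.Agent.Helper58.LT
open Pool.Agent.Helper58.PS Pool.Agent.Helper6.PW

theorem blk4 (U : ℝ) (hU : 1 ≤ U) :
    ∃ δ : ℝ, 0 < δ ∧ ∃ l₀ : ℕ, ∀ l b : ℕ, l₀ ≤ l → (l : ℝ) ≤ U * b → ∀ S : Finset ℕ,
    (∀ n ∈ S, IsLehmer n ∧ 2 ^ (l - 1) < n ∧ n ≤ 2 ^ l ∧
      ∃ p, IsP n p ∧ 2 ^ b < p ∧ p ≤ 2 ^ (b + 1)) →
    (#S : ℝ) ≤ (2 : ℝ) ^ ((1 / 2 - δ) * (l : ℝ)) :=
  blk4_of (fun r hr ε hε => classA r hr ε hε) (fun ε hε => Pool.Agent.Helper77.PS.classCb ε hε)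
    (fun i hi => bridge_of clusterS toA toC i hi) (fun i r hr hri => classE i r hr hri)
    (fun _ _ _ _ _ _ _ h1 h2 h3 h4 h5 h6 h7 h8 => toE h1 h2 h3 h4 h5 h6 h7 h8) U hU

end Pool.Agent.Helper19.P3
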